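import Pool.Agent.W610.HY.Stm4

/-!
Project HY (owner helper610), part MEANI: Cauchy's formula on the unit circle, at any point of the
open unit disc.
-/

set_option autoImplicit false

namespace Pool.Agent.W378.HY.MEANI

open MeasureTheory Set Metric Filter Topology
open Pool.Agent.W610.HY

theorem main : Pool.Agent.W610.HY.MEANI := by
  intro F hF w hw
  have h1 : (∮ z in C(0, 1), (z - w)⁻¹ • F z) = (2 * Real.pi * Complex.I : ℂ) • F w :=
    hF.differentiableOn.circleIntegral_sub_inv_smul (by simpa using hw)
  have h2 : (∮ z in C(0, 1), (z - w)⁻¹ • F z) =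
      Complex.I * ∫ θ in (0:ℝ)..(2 * Real.pi), F (circleMap 0 1 θ) *
        (circleMap 0 1 θ / (circleMap 0 1 θ - w)) := by
    rw [circleIntegral, ← intervalIntegral.integral_const_mul]
    congr 1
    funext θ
    rw [deriv_circleMap, smul_eq_mul, smul_eq_mul]
    ring
  rw [h2, smul_eq_mul] at h1
  have h3 : Complex.I * (∫ θ in (0:ℝ)..(2 * Real.pi), F (circleMap 0 1 θ) *
        (circleMap 0 1 θ / (circleMap 0 1 θ - w))) =
      Complex.I * (2 * Real.pi * F w) := by
    rw [h1]; ring
  exact mul_left_cancel₀ Complex.I_ne_zero h3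

end Pool.Agent.W378.HY.MEANI
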